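import Pool.Agent.helper60.DB.SpecC

/-! Row bc:CR. -/

set_option autoImplicit false

namespace Pool.Agent.helper60.DB

open Polynomial Finset

theorem CR_dvd {K : Type} [Field K] {N E : K[X]} (h : N ^ 2 ∣ E ^ 2) : N ∣ E :=
  (UniqueFactorizationMonoid.pow_dvd_pow_iff_dvd two_ne_zero).1 h

theorem CR (hLC : LC_stmt) (hRE : RE_stmt) (hRV : RV_stmt) (hSR : SR_stmt) (hUQ : UQ_stmt) :
    CR_stmt := by
  intro K _ _ A B A' B' π N D m hB hB' hπ hN hD hNm hN0 hD0 hcop hFE
  obtain ⟨dN, cN, -⟩ := hRE K B m N hB hN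
  obtain ⟨dD, cD, -⟩ := hRE K B m D hB hD
  have hLC' := hLC K A B A' B' π N D m hN hD hNm hFE
  have hRV' := hRV K A B A' B' π N D m hB hN hD hFE
  set F : K[X] := ht m B N with hF
  set E : K[X] := ht m B D with hE
  have F0 : F.coeff 0 = N.coeff m := by
    rw [cN 0 (Nat.zero_le m)]; simp
  have E0 : E.coeff 0 = D.coeff m := by
    rw [cD 0 (Nat.zero_le m)]; simp
  have Em : E.coeff m = B ^ m := by
    rw [cD m le_rfl, Nat.sub_self, hD0, one_mul]
  obtain ⟨ψ1, a1, a2, a3, a4⟩ := hSR K A B A' B' π 1 N D (by rw [hD0]; exact one_ne_zero)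
    (by simpa using hFE)
  have hκ : C (B / B') * (qf A B * Mn E F ^ 2) = C (π ^ 2) * (F ^ 4 + C (A' * (B / B')) * X * E ^ 2 * F ^ 2
      + C (B' * (B / B') ^ 2) * X ^ 2 * E ^ 4) := by
    have h1 : C (B / B') = C (1 / B') * C B := by rw [← C_mul]; congr 1; field_simp
    have h2 : C (A' * (B / B')) = C (1 / B') * C (A' * B) := by rw [← C_mul]; congr 1; field_simp
    have h3 : C (B' * (B / B') ^ 2) = C (1 / B') * C (B ^ 2) := by rw [← C_mul]; congr 1; field_simp
    have h4 : C (1 / B') * C B' = (1 : K[X]) := by rw [← C_mul]; rw [← C_1]; congr 1; field_simp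
    rw [h2, h3, h1]
    linear_combination C (1 / B') * hRV' + C (π ^ 2) * F ^ 4 * h4
  obtain ⟨ψ2, b1, b2, b3, b4⟩ := hSR K A B A' B' π (B / B') E F (by rw [F0]; exact hNm) hκ
  have c1 : PowerSeries.coeff 1 ψ1 = π ^ 2 := by
    rw [hD0, hN0] at a3; simpa using a3
  have c2 : PowerSeries.coeff 1 ψ2 = π ^ 2 := by
    rw [F0, E0] at b3
    have h5 : B / B' * D.coeff m ^ 2 = π ^ 2 * N.coeff m ^ 2 := by
      field_simp
      linear_combination hLC'
    rw [h5] at b3
    have h6 : N.coeff m ^ 2 ≠ 0 := pow_ne_zero 2 hNm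
    apply mul_left_cancel₀ h6
    rw [b3]; ring
  have hψ := hUQ K A B A' B' π ψ1 ψ2 hπ a2 b2 c1 c2 a4 b4
  subst hψ
  -- the identity of polynomials
  have key : C B' * (F * N) ^ 2 = C B * (D * E) ^ 2 := by
    apply Polynomial.coe_injective K
    have hX : (PowerSeries.X : PowerSeries K) ≠ 0 := PowerSeries.X_ne_zero
    apply mul_left_cancel₀ hX
    have h7 : PowerSeries.C B' * PowerSeries.C (B / B') = PowerSeries.C B := by
      rw [← map_mul]; congr 1; field_simp
    push_cast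
    rw [map_one, one_mul] at a1
    linear_combination (-PowerSeries.C B' * (F : PowerSeries K) ^ 2) * a1
      + (PowerSeries.C B' * (D : PowerSeries K) ^ 2) * b1
      + (D : PowerSeries K) ^ 2 * PowerSeries.X * (E : PowerSeries K) ^ 2 * h7
  have hNE : N ∣ E := by
    apply CR_dvd
    have h8 : IsCoprime (N ^ 2) (D ^ 2) := hcop.pow
    apply h8.dvd_of_dvd_mul_left
    refine ⟨C (B' / B) * F ^ 2, ?_⟩
    have h9 : C (1 / B) * C B = (1 : K[X]) := by rw [← C_mul]; rw [← C_1]; congr 1; field_simp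
    have h10 : C (B' / B) = C (1 / B) * C B' := by rw [← C_mul]; congr 1; field_simp
    rw [h10]
    linear_combination (-C (1 / B)) * key - (D * E) ^ 2 * h9
  obtain ⟨c', hc'⟩ := hNE
  have hE0 : E ≠ 0 := by
    intro h; rw [h, coeff_zero] at Em; exact pow_ne_zero m hB Em.symm
  have hN0' : N ≠ 0 := by
    intro h; rw [h, zero_mul] at hc'; exact hE0 hc'
  have hc0 : c' ≠ 0 := by
    intro h; rw [h, mul_zero] at hc'; exact hE0 hc'
  have hNdeg : N.natDegree = m := le_antisymm hN (le_natDegree_of_ne_zero hNm)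
  have hcdeg : c'.natDegree = 0 := by
    have h11 : E.natDegree = N.natDegree + c'.natDegree := by
      rw [hc', natDegree_mul hN0' hc0]
    omega
  obtain ⟨c, rfl⟩ : ∃ c : K, C c = c' := ⟨c'.coeff 0, (eq_C_of_natDegree_eq_zero hcdeg).symm⟩
  have hcB : N.coeff m * c = B ^ m := by
    rw [← Em, hc', coeff_mul_C]
  have key2 : C B' * F ^ 2 = C B * (D * C c) ^ 2 := by
    have h12 : N ^ 2 ≠ 0 := pow_ne_zero 2 hN0'
    apply mul_left_cancel₀ h12
    rw [hc'] at key
    linear_combination key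
  have h13 := congrArg (fun p : K[X] => p.coeff 0) key2
  simp only [coeff_zero_eq_eval_zero, eval_mul, eval_pow, eval_C] at h13
  rw [← coeff_zero_eq_eval_zero, ← coeff_zero_eq_eval_zero, F0, hD0, one_mul] at h13
  have h14 : B ^ (2 * m + 1) = B * (B ^ m) ^ 2 := by ring
  rw [h14, ← hcB]
  linear_combination (N.coeff m) ^ 2 * h13

end Pool.Agent.helper60.DB
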