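import Pool.Agent.helper60.DB.SpecM

/-! Row bm:PL: the parallelogram law for the degrees. -/

set_option autoImplicit false

namespace Pool.Agent.helper60.DB

open Polynomial

theorem PL_ne {K : Type} [Field K] {f : PowerSeries K} {N D : K[X]} (hc : IsCoprime N D)
    (h : (D : PowerSeries K) * f = (N : PowerSeries K)) : D ≠ 0 := by
  rintro rfl
  rw [Polynomial.coe_zero, zero_mul] at h
  have hN : N = 0 := by
    apply Polynomial.coe_injective K
    rw [← h, Polynomial.coe_zero]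
  rw [hN] at hc
  obtain ⟨a, b, hab⟩ := hc
  simp at hab

theorem PL_two {K : Type} [Field K] : ((2 : K[X]) : PowerSeries K) = 2 :=
  map_ofNat (Polynomial.coeToPowerSeries.ringHom (R := K)) 2

theorem PL (hTC : TC_stmt) (hTF : TF_stmt) (hTE : TE_stmt) : PL_stmt := by
  intro K _ _ A' B' f1 f2 f3 f4 d1 d2 d3 d4 hB hAB h1 h2 h3 h4 hf1 hmul hadd
  obtain ⟨N1, D1, c1, e1, r1⟩ := h1
  obtain ⟨N2, D2, c2, e2, r2⟩ := h2
  obtain ⟨N3, D3, c3, e3, r3⟩ := h3
  obtain ⟨N4, D4, c4, e4, r4⟩ := h4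
  have n1 := PL_ne c1 r1
  have n2 := PL_ne c2 r2
  obtain ⟨⟨u, v, w, huvw⟩, hd⟩ := hTC K N3 D3 N4 D4 c3 c4
  obtain ⟨⟨u', v', w', huvw'⟩, hd'⟩ := hTF K A' B' N1 D1 N2 D2 hB hAB c1 c2
  -- the triple of TF in the power series
  have hT2 : ((D1 * D2 - C B' * N1 * N2) ^ 2) * (N3 * N4) = (N1 * D2 - N2 * D1) ^ 2 * (D3 * D4) := by
    apply Polynomial.coe_injective K
    push_cast
    rw [← r1, ← r2, ← r3, ← r4]
    linear_combination ((D1 : PowerSeries K) ^ 2 * (D2 : PowerSeries K) ^ 2 * (D3 : PowerSeries K)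
      * (D4 : PowerSeries K)) * hmul
  have hT1 : ((D1 * D2 - C B' * N1 * N2) ^ 2) * (N3 * D4 + D3 * N4) =
      (2 * ((N1 * D2 + N2 * D1) * (D1 * D2 + C B' * N1 * N2) + 2 * C A' * N1 * N2 * D1 * D2))
        * (D3 * D4) := by
    apply Polynomial.coe_injective K
    push_cast
    rw [PL_two, ← r1, ← r2, ← r3, ← r4]
    linear_combination ((D1 : PowerSeries K) ^ 2 * (D2 : PowerSeries K) ^ 2 * (D3 : PowerSeries K)
      * (D4 : PowerSeries K)) * hadd
  have hT0 : (D1 * D2 - C B' * N1 * N2) ^ 2 ≠ 0 := by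
    intro h0
    have h0' : D1 * D2 - C B' * N1 * N2 = 0 := by
      exact pow_eq_zero_iff (two_ne_zero) |>.1 h0
    have h1 : (D1 : PowerSeries K) * (D2 : PowerSeries K) *
        (1 - PowerSeries.C B' * f1 * f2) = 0 := by
      have h2 := congrArg (fun p : K[X] => (p : PowerSeries K)) h0'
      simp only [Polynomial.coe_zero] at h2
      push_cast at h2
      rw [← r1, ← r2] at h2
      linear_combination h2
    have h3 : (1 - PowerSeries.C B' * f1 * f2) ≠ 0 := by
      intro h4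
      have h5 := congrArg PowerSeries.constantCoeff h4
      rw [map_sub, map_one, map_mul, map_mul, hf1, mul_zero, zero_mul, sub_zero, map_zero] at h5
      exact one_ne_zero h5
    have hD1 : (D1 : PowerSeries K) ≠ 0 := by
      intro h; apply n1; apply Polynomial.coe_injective K; rw [h, Polynomial.coe_zero]
    have hD2 : (D2 : PowerSeries K) ≠ 0 := by
      intro h; apply n2; apply Polynomial.coe_injective K; rw [h, Polynomial.coe_zero]
    exact mul_ne_zero (mul_ne_zero hD1 hD2) h3 h1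
  have key := hTE K (N3 * N4) (N3 * D4 + D3 * N4) (D3 * D4) ((N1 * D2 - N2 * D1) ^ 2)
    (2 * ((N1 * D2 + N2 * D1) * (D1 * D2 + C B' * N1 * N2) + 2 * C A' * N1 * N2 * D1 * D2))
    ((D1 * D2 - C B' * N1 * N2) ^ 2) u v w u' v' w' huvw huvw'
    (by
      apply mul_left_cancel₀ hT0
      linear_combination (2 * ((N1 * D2 + N2 * D1) * (D1 * D2 + C B' * N1 * N2)
        + 2 * C A' * N1 * N2 * D1 * D2)) * hT2 - ((N1 * D2 - N2 * D1) ^ 2) * hT1)
    (by linear_combination hT2)
    (by linear_combination hT1)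
  rw [← e3, ← e4, ← e1, ← e2, ← hd, ← hd']
  exact key

end Pool.Agent.helper60.DB
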